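import Pool.Agent.Work.MP_bd4052_lc.Interface

/-!
# MP_bd4052_lc, block DIR: lines whose chords are covered by creases
-/

set_option autoImplicit false

namespace Pool.Agent.Work.MP_bd4052_lc

open Filter Topology

theorem dir_of_orth (a : Pt) (ha : a ≠ 0) (c u v : ℝ) (huv : ¬ (u = 0 ∧ v = 0))
    (h : a.1 * u + a.2 * v = 0) (hdir : u = 0 ∨ v = 0 ∨ u = v ∨ u = -v) :
    ∃ (i : ℕ) (d t : ℝ), i < 8 ∧ 0 < t ∧ ∀ z : Pt, a.1 * z.1 + a.2 * z.2 - c = t * (dotR i z - d) := by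
  have key : ∀ (i : ℕ) (t : ℝ), i < 8 → 0 < t → (∀ z : Pt, a.1 * z.1 + a.2 * z.2 = t * dotR i z) →
      ∃ (i : ℕ) (d t : ℝ), i < 8 ∧ 0 < t ∧
        ∀ z : Pt, a.1 * z.1 + a.2 * z.2 - c = t * (dotR i z - d) := by
    intro i t hi ht hz
    refine ⟨i, c / t, t, hi, ht, fun z => ?_⟩
    rw [hz, mul_sub, mul_div_cancel₀ _ ht.ne']
  have hd0 : ∀ z : Pt, dotR 0 z = z.1 := fun z => rfl
  have hd1 : ∀ z : Pt, dotR 1 z = z.1 + z.2 := fun z => rfl
  have hd2 : ∀ z : Pt, dotR 2 z = z.2 := fun z => rfl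
  have hd3 : ∀ z : Pt, dotR 3 z = z.2 + -z.1 := fun z => rfl
  have hd4 : ∀ z : Pt, dotR 4 z = -z.1 := fun z => rfl
  have hd5 : ∀ z : Pt, dotR 5 z = -z.1 + -z.2 := fun z => rfl
  have hd6 : ∀ z : Pt, dotR 6 z = -z.2 := fun z => rfl
  have hd7 : ∀ z : Pt, dotR 7 z = z.1 + -z.2 := fun z => rfl
  by_cases hu : u = 0
  · -- vertical crease, `a₂ = 0`
    have hv : v ≠ 0 := fun hv => huv ⟨hu, hv⟩
    rw [hu, mul_zero, zero_add] at h
    have ha2 : a.2 = 0 := by
      rcases mul_eq_zero.1 h with h1 | h1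
      · exact h1
      · exact absurd h1 hv
    have ha1 : a.1 ≠ 0 := fun h1 => ha (Prod.ext h1 ha2)
    rcases lt_or_gt_of_ne ha1 with h1 | h1
    · exact key 4 (-a.1) (by norm_num) (by linarith) fun z => by rw [hd4, ha2]; ring
    · exact key 0 a.1 (by norm_num) h1 fun z => by rw [hd0, ha2]; ring
  by_cases hv : v = 0
  · rw [hv, mul_zero, add_zero] at h
    have ha1 : a.1 = 0 := by
      rcases mul_eq_zero.1 h with h1 | h1
      · exact h1
      · exact absurd h1 hu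
    have ha2 : a.2 ≠ 0 := fun h1 => ha (Prod.ext ha1 h1)
    rcases lt_or_gt_of_ne ha2 with h1 | h1
    · exact key 6 (-a.2) (by norm_num) (by linarith) fun z => by rw [hd6, ha1]; ring
    · exact key 2 a.2 (by norm_num) h1 fun z => by rw [hd2, ha1]; ring
  rcases hdir with h0 | h0 | h0 | h0
  · exact absurd h0 hu
  · exact absurd h0 hv
  · -- `a₁ + a₂ = 0`
    have h1 : (a.1 + a.2) * v = 0 := by rw [h0] at h; linarith
    have h2 : a.1 + a.2 = 0 := by
      rcases mul_eq_zero.1 h1 with h3 | h3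
      · exact h3
      · exact absurd h3 hv
    have h3 : a.2 = -a.1 := by linarith
    have ha1 : a.1 ≠ 0 := fun h4 => ha (Prod.ext h4 (by rw [h3, h4]; simp))
    rcases lt_or_gt_of_ne ha1 with h4 | h4
    · exact key 3 (-a.1) (by norm_num) (by linarith) fun z => by rw [hd3, h3]; ring
    · exact key 7 a.1 (by norm_num) h4 fun z => by rw [hd7, h3]; ring
  · have h1 : (a.2 - a.1) * v = 0 := by rw [h0] at h; linarith
    have h2 : a.2 - a.1 = 0 := by
      rcases mul_eq_zero.1 h1 with h3 | h3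
      · exact h3
      · exact absurd h3 hv
    have h3 : a.2 = a.1 := by linarith
    have ha1 : a.1 ≠ 0 := fun h4 => ha (Prod.ext h4 (by rw [h3, h4]; simp))
    rcases lt_or_gt_of_ne ha1 with h4 | h4
    · exact key 5 (-a.1) (by norm_num) (by linarith) fun z => by rw [hd5, h3]; ring
    · exact key 1 a.1 (by norm_num) h4 fun z => by rw [hd1, h3]; ring

/-- BLOCK DIR -/
theorem stmt_DIR (hG : Stmt_GEO1) : Stmt_DIR := by
  intro m hm a c ha hin₁ hin₂ hmark
  have hr : RecOK (recR m) := by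
    refine ⟨?_, ?_⟩
    · change (m.x0 : ℝ) < m.x1
      exact_mod_cast hm.1
    · change (m.y0 : ℝ) < m.y1
      exact_mod_cast hm.2.1
  obtain ⟨-, -, -, hG4⟩ := hG
  obtain ⟨-, -, -, hopen, -, hconv, -⟩ := hG4 (recR m) hr
  change IsOpen m.inner at hopen
  change Convex ℝ m.inner at hconv
  -- an inner point on the line
  obtain ⟨z₀, hz₀, hz₀c⟩ : ∃ z ∈ m.inner, a.1 * z.1 + a.2 * z.2 = c := by
    obtain ⟨z₁, hz₁, h1⟩ := hin₁
    obtain ⟨z₂, hz₂, h2⟩ := hin₂
    set F₁ := a.1 * z₁.1 + a.2 * z₁.2 - c with hF₁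
    set F₂ := a.1 * z₂.1 + a.2 * z₂.2 - c with hF₂
    have h3 : 0 < F₁ := by linarith
    have h4 : F₂ < 0 := by linarith
    have h5 : 0 < F₁ - F₂ := by linarith
    refine ⟨(-F₂ / (F₁ - F₂)) • z₁ + (F₁ / (F₁ - F₂)) • z₂, ?_, ?_⟩
    · apply hconv hz₁ hz₂
      · apply div_nonneg <;> linarith
      · apply div_nonneg <;> linarith
      · rw [← add_div, div_eq_one_iff_eq h5.ne']; ring
    · simp only [Prod.fst_add, Prod.snd_add, Prod.smul_fst, Prod.smul_snd, smul_eq_mul]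
      have h6 : a.1 * z₁.1 + a.2 * z₁.2 = F₁ + c := by linarith
      have h7 : a.1 * z₂.1 + a.2 * z₂.2 = F₂ + c := by linarith
      have h8 : a.1 * (-F₂ / (F₁ - F₂) * z₁.1 + F₁ / (F₁ - F₂) * z₂.1) +
          a.2 * (-F₂ / (F₁ - F₂) * z₁.2 + F₁ / (F₁ - F₂) * z₂.2) =
          (-F₂ * (a.1 * z₁.1 + a.2 * z₁.2) + F₁ * (a.1 * z₂.1 + a.2 * z₂.2)) / (F₁ - F₂) := by
        field_simp
        ring
      rw [h8, h6, h7]
      rw [div_eq_iff h5.ne']
      ring
  -- infinitely many points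
  set S : Set Pt := {z | z ∈ m.inner ∧ a.1 * z.1 + a.2 * z.2 = c} with hS
  have hSinf : S.Infinite := by
    set φ : ℝ → Pt := fun s => (z₀.1 + s * (-a.2), z₀.2 + s * a.1) with hφ
    have hφc : Continuous φ := by rw [hφ]; fun_prop
    have h1 : φ ⁻¹' m.inner ∈ 𝓝 (0 : ℝ) := by
      apply hφc.continuousAt.preimage_mem_nhds
      apply hopen.mem_nhds
      rw [hφ]
      simpa using hz₀
    have h2 : (φ ⁻¹' m.inner).Infinite := infinite_of_mem_nhds 0 h1
    refine Set.infinite_of_injOn_mapsTo (f := φ) ?_ ?_ h2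
    · intro s _ s' _ hss
      rw [hφ] at hss
      simp only [Prod.mk.injEq, add_right_inj] at hss
      obtain ⟨h3, h4⟩ := hss
      by_cases ha1 : a.1 = 0
      · have ha2 : a.2 ≠ 0 := fun h => ha (Prod.ext ha1 h)
        exact mul_right_cancel₀ (neg_ne_zero.2 ha2) h3
      · exact mul_right_cancel₀ ha1 h4
    · intro s hs
      refine ⟨hs, ?_⟩
      rw [hφ]
      dsimp only
      linarith
  -- two points on one crease
  have hex : ∃ cr ∈ m.creases, ¬ (S ∩ segment ℝ (toPt cr.p) (toPt cr.q)).Subsingleton := by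
    by_contra hcon
    push Not at hcon
    apply hSinf
    have h1 : S ⊆ ⋃ cr ∈ {cr | cr ∈ m.creases}, (S ∩ segment ℝ (toPt cr.p) (toPt cr.q)) := by
      intro z hz
      rcases hmark z hz.1 hz.2 with ⟨cr, hcr, -, hseg⟩ | ⟨cr, hcr, -, hseg⟩
      · exact Set.mem_iUnion₂.2 ⟨cr, hcr, hz, hseg⟩
      · exact Set.mem_iUnion₂.2 ⟨cr, hcr, hz, hseg⟩
    refine Set.Finite.subset ?_ h1
    exact (List.finite_toSet m.creases).biUnion fun cr hcr => (hcon cr hcr).finite
  obtain ⟨cr, hcr, hns⟩ := hex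
  rw [Set.not_subsingleton_iff] at hns
  obtain ⟨x, ⟨⟨-, hxc⟩, hx⟩, y, ⟨⟨-, hyc⟩, hy⟩, hxy⟩ := hns
  obtain ⟨s, s', -, -, hss, rfl⟩ := hx
  obtain ⟨t, t', -, -, htt, rfl⟩ := hy
  simp only [Prod.fst_add, Prod.snd_add, Prod.smul_fst, Prod.smul_snd, smul_eq_mul, toPt] at hxc hyc
  obtain ⟨hpq, -, -, hdir⟩ := hm.2.2 cr hcr
  have hst : s' ≠ t' := by
    rintro rfl
    apply hxy
    have : s = t := by linarith
    rw [this]
  apply dir_of_orth a ha c ((cr.q.1 : ℝ) - cr.p.1) ((cr.q.2 : ℝ) - cr.p.2)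
  · rintro ⟨h1, h2⟩
    apply hpq
    have h3 : (cr.p.1 : ℝ) = cr.q.1 := by linarith
    have h4 : (cr.p.2 : ℝ) = cr.q.2 := by linarith
    exact Prod.ext (by exact_mod_cast h3) (by exact_mod_cast h4)
  · have hs : s = 1 - s' := by linarith
    have ht : t = 1 - t' := by linarith
    rw [hs] at hxc
    rw [ht] at hyc
    have h1 : (s' - t') * (a.1 * ((cr.q.1 : ℝ) - cr.p.1) + a.2 * ((cr.q.2 : ℝ) - cr.p.2)) = 0 := by
      linear_combination hxc - hyc
    rcases mul_eq_zero.1 h1 with h2 | h2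
    · exact absurd (by linarith) hst
    · exact h2
  · rcases hdir with h | h | h | h
    · left
      have : (cr.p.1 : ℝ) = cr.q.1 := by exact_mod_cast h
      linarith
    · right; left
      have : (cr.p.2 : ℝ) = cr.q.2 := by exact_mod_cast h
      linarith
    · right; right; left
      exact_mod_cast h
    · right; right; right
      have : (cr.q.1 : ℝ) - cr.p.1 = cr.p.2 - cr.q.2 := by exact_mod_cast h
      linarith

end Pool.Agent.Work.MP_bd4052_lc
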