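import Pool.Agent.Work.MP_bd4052_lc.Interface

/-!
# MP_bd4052_lc, block SEM: assembly
-/

set_option autoImplicit false

namespace Pool.Agent.Work.MP_bd4052_lc

theorem initial_eq (m : PaperMap) : initial m = stateR (recR m) [] := by
  unfold initial stateR
  congr 1
  · simp only [stackR, List.map_cons, List.map_nil]
    congr 1
    congr 1
    ext z
    constructor
    · intro hz
      exact ⟨hz, by simp⟩
    · intro hz
      exact hz.1
  · funext b
    ext z
    simp

/-- BLOCK SEM -/
theorem stmt_SEM (h1 : Stmt_SEM1) (h2 : Stmt_SEM2) : Stmt_SEM := by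
  intro m hm
  have hr : RecOK (recR m) := by
    refine ⟨?_, ?_⟩
    · change (m.x0 : ℝ) < m.x1
      exact_mod_cast hm.1
    · change (m.y0 : ℝ) < m.y1
      exact_mod_cast hm.2.1
  have hinner : m.inner ⊆ m.R := by
    intro z hz
    exact ⟨hz.1.le, hz.2.1.le, hz.2.2.1.le, hz.2.2.2.le⟩
  constructor
  · rintro ⟨s, hs, hfold⟩
    have key : ∀ s, Reachable m s → (∀ b : Bool, s.fold b ∩ m.inner ⊆ m.marked b) →
        ∃ G, VSR (recR m) G ∧ s = stateR (recR m) G := by
      intro s hs
      induction hs with
      | start => intro _; exact ⟨[], trivial, initial_eq m⟩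
      | @step s t below above L a c up _ hst ih =>
        intro ht
        have hsub : ∀ b, s.fold b ⊆ t.fold b := by
          intro b
          rw [hst.folds b]
          split_ifs
          · exact Set.subset_union_left
          · exact subset_rfl
        obtain ⟨G, hG, rfl⟩ := ih fun b z hz => ht b ⟨hsub b hz.1, hz.2⟩
        obtain ⟨e, he, rfl⟩ := h2 m hm G hG t below above L a c up hst (by
          intro b z hz
          have := ht b hz
          cases b
          · exact Or.inr this
          · exact Or.inl this)
        exact ⟨e :: G, he, rfl⟩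
    obtain ⟨G, hG, rfl⟩ := key s hs fun b z hz => by
      rw [hfold b] at hz
      exact hz.1
    refine ⟨G, hG, ?_⟩
    intro b z hz
    have h3 := Set.ext_iff.1 (hfold b) z
    constructor
    · intro hzm
      have h4 := h3.2 ⟨hzm, hz⟩
      exact h4.1.2
    · intro hze
      have h4 := h3.1 ⟨⟨hinner hz, hze⟩, hz⟩
      exact h4.1
  · rintro ⟨G, hG, hmarks⟩
    refine ⟨stateR (recR m) G, ?_, ?_⟩
    · clear hmarks
      induction G with
      | nil => rw [← initial_eq]; exact Reachable.start
      | cons e G ih =>
        obtain ⟨below, above, L, a, c, up, hst⟩ := h1 (recR m) hr G e hG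
        exact Reachable.step (ih hG.1) hst
    · intro b
      ext z
      constructor
      · rintro ⟨⟨-, hze⟩, hz⟩
        exact ⟨(hmarks b z hz).2 hze, hz⟩
      · rintro ⟨hzm, hz⟩
        exact ⟨⟨hinner hz, (hmarks b z hz).1 hzm⟩, hz⟩

end Pool.Agent.Work.MP_bd4052_lc
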