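import Pool.Agent.Work.MP_bd4052_lc.Interface

/-!
# MP_bd4052_lc, block SEM0: structure of valid sequences of caps
-/

set_option autoImplicit false

namespace Pool.Agent.Work.MP_bd4052_lc

open Filter Topology

variable {r : Rec ℝ}

theorem SubS.refl (r : Rec ℝ) (e : Con ℝ) : SubS r e e := fun _ _ h => h

theorem SubS.trans {e f g : Con ℝ} (h : SubS r e f) (h' : SubS r f g) : SubS r e g :=
  fun z hz h1 => h' z hz (h z hz h1)

theorem DisjS.symm {e f : Con ℝ} (h : DisjS r e f) : DisjS r f e :=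
  fun z hz h1 h2 => h z hz h2 h1

theorem SubS.not_disj {e f : Con ℝ} (hp : ProperS r e) (h : SubS r e f) (h' : DisjS r e f) :
    False := by
  obtain ⟨⟨z, hz, h1⟩, -⟩ := hp
  exact h' z hz h1 (h z hz h1)

theorem SameL.symm_of {e f : Con ℝ} (hf : cneg (cneg f) = f) (h : SameL e f) : SameL f e := by
  rcases h with h | h
  · exact Or.inl h.symm
  · right; rw [h, hf]

theorem vsr_mem {G : List (Cap ℝ)} (h : VSR r G) : ∀ e ∈ G, e.1.1 < 8 ∧ ProperS r e.1 := by
  induction G with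
  | nil => simp
  | cons e G ih =>
    intro f hf
    rcases List.mem_cons.1 hf with rfl | hf
    · exact ⟨h.2.1, h.2.2.1⟩
    · exact ih h.1 f hf

theorem vsr_pair {G : List (Cap ℝ)} (h : VSR r G) : ∀ e ∈ G, ∀ f ∈ G,
    SubS r e.1 f.1 ∨ SubS r f.1 e.1 ∨ DisjS r e.1 f.1 := by
  induction G with
  | nil => simp
  | cons e G ih =>
    intro a ha b hb
    rcases List.mem_cons.1 ha with rfl | ha'
    · rcases List.mem_cons.1 hb with rfl | hb'
      · exact Or.inl (SubS.refl _ _)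
      · rcases (h.2.2.2.1 b hb').1 with h1 | h1
        · exact Or.inl h1
        · exact Or.inr (Or.inr h1)
    · rcases List.mem_cons.1 hb with rfl | hb'
      · rcases (h.2.2.2.1 a ha').1 with h1 | h1
        · exact Or.inr (Or.inl h1)
        · exact Or.inr (Or.inr h1.symm)
      · exact ih h.1 a ha' b hb'

theorem dotR_sub (hG : Stmt_GEO1) (i : ℕ) (z z₀ : Pt) :
    dotR i z - dotR i z₀ = (nvec i).1 * (z.1 - z₀.1) + (nvec i).2 * (z.2 - z₀.2) := by
  rw [hG.1, hG.1]; ring

theorem continuous_dotR (hG : Stmt_GEO1) (i : ℕ) : Continuous (dotR i) := by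
  have : dotR i = fun z : Pt => (nvec i).1 * z.1 + (nvec i).2 * z.2 := funext (hG.1 i)
  rw [this]
  fun_prop

/-- two open half-planes through an inner point that meet in the weak sense meet in `RI`. -/
theorem exists_near (hopen : IsOpen (RI r)) {z₀ : Pt} (hz₀ : z₀ ∈ RI r) (u v w : Pt) (hu : u ≠ 0)
    (h1 : 0 ≤ u.1 * w.1 + u.2 * w.2) (h2 : 0 < v.1 * w.1 + v.2 * w.2) :
    ∃ z ∈ RI r, 0 < u.1 * (z.1 - z₀.1) + u.2 * (z.2 - z₀.2) ∧
      0 < v.1 * (z.1 - z₀.1) + v.2 * (z.2 - z₀.2) := by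
  have hu2 : 0 < u.1 * u.1 + u.2 * u.2 := by
    by_contra hcon
    have h3 : u.1 * u.1 + u.2 * u.2 = 0 := le_antisymm (not_lt.1 hcon)
      (add_nonneg (mul_self_nonneg _) (mul_self_nonneg _))
    have h4 : u.1 = 0 := by nlinarith [mul_self_nonneg u.1, mul_self_nonneg u.2]
    have h5 : u.2 = 0 := by nlinarith [mul_self_nonneg u.1, mul_self_nonneg u.2]
    exact hu (Prod.ext h4 h5)
  -- choose `s`
  obtain ⟨s, hs, hs2⟩ : ∃ s : ℝ, 0 < s ∧
      0 < v.1 * (w.1 + s * u.1) + v.2 * (w.2 + s * u.2) := by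
    have hc : Tendsto (fun s : ℝ => v.1 * (w.1 + s * u.1) + v.2 * (w.2 + s * u.2)) (𝓝[>] 0)
        (𝓝 (v.1 * (w.1 + 0 * u.1) + v.2 * (w.2 + 0 * u.2))) := by
      apply tendsto_nhdsWithin_of_tendsto_nhds
      apply Continuous.tendsto
      fun_prop
    rw [zero_mul, zero_mul, add_zero, add_zero] at hc
    have hev := (hc.eventually_const_lt h2).and self_mem_nhdsWithin
    obtain ⟨s, hs1, hs2⟩ := hev.exists
    exact ⟨s, hs2, hs1⟩
  have hcz : Tendsto (fun t : ℝ => ((z₀.1 + t * (w.1 + s * u.1), z₀.2 + t * (w.2 + s * u.2)) : Pt))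
      (𝓝[>] 0) (𝓝 z₀) := by
    apply tendsto_nhdsWithin_of_tendsto_nhds
    have hcont : Continuous (fun t : ℝ =>
        ((z₀.1 + t * (w.1 + s * u.1), z₀.2 + t * (w.2 + s * u.2)) : Pt)) := by fun_prop
    have := hcont.tendsto 0
    simpa using this
  have hev := (hcz.eventually (hopen.mem_nhds hz₀)).and self_mem_nhdsWithin
  obtain ⟨t, ht1, ht2⟩ := hev.exists
  refine ⟨_, ht1, ?_, ?_⟩
  · have : u.1 * (z₀.1 + t * (w.1 + s * u.1) - z₀.1) + u.2 * (z₀.2 + t * (w.2 + s * u.2) - z₀.2) =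
        t * ((u.1 * w.1 + u.2 * w.2) + s * (u.1 * u.1 + u.2 * u.2)) := by ring
    dsimp only
    rw [this]
    exact mul_pos ht2 (add_pos_of_nonneg_of_pos h1 (mul_pos hs hu2))
  · have : v.1 * (z₀.1 + t * (w.1 + s * u.1) - z₀.1) + v.2 * (z₀.2 + t * (w.2 + s * u.2) - z₀.2) =
        t * (v.1 * (w.1 + s * u.1) + v.2 * (w.2 + s * u.2)) := by ring
    dsimp only
    rw [this]
    exact mul_pos ht2 hs2

/-- the hypotheses on a new cap -/
structure NewCap (r : Rec ℝ) (G : List (Cap ℝ)) (e : Cap ℝ) : Prop where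
  dir : e.1.1 < 8
  proper : ProperS r e.1
  pos : ∀ f ∈ G, (SubS r e.1 f.1 ∨ DisjS r e.1 f.1) ∧ ¬ SameL e.1 f.1

section

variable {G : List (Cap ℝ)} {e : Cap ℝ}

theorem NewCap.notMem (h : NewCap r G e) : e ∉ G := fun he => (h.pos e he).2 (Or.inl rfl)

theorem NewCap.not_sub (hG : Stmt_GEO1) (hr : RecOK r) (hV : VSR r G) (h : NewCap r G e) :
    ∀ f ∈ G, ¬ SubS r f.1 e.1 := by
  obtain ⟨-, -, -, hG4⟩ := hG
  obtain ⟨-, -, -, -, -, -, -, -, -, -, -, -, h13, -, -⟩ := hG4 r hr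
  intro f hf hfe
  obtain ⟨hf8, hfp⟩ := vsr_mem hV f hf
  rcases (h.pos f hf).1 with h1 | h1
  · exact (h.pos f hf).2 (Or.inl (h13 e.1 f.1 h.dir hf8 h.proper hfp h1 hfe))
  · exact SubS.not_disj hfp hfe h1.symm

theorem NewCap.ancs_eq (hG : Stmt_GEO1) (hr : RecOK r) (hV : VSR r G) (h : NewCap r G e) :
    ∀ k ∈ G, ancs r (e :: G) k = ancs r G k := by
  classical
  intro k hk
  unfold ancs
  rw [List.filter_cons_of_neg]
  simpa using h.not_sub hG hr hV k hk

theorem NewCap.ancs_self : ancs r (e :: G) e = e :: ancs r G e := by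
  classical
  unfold ancs
  rw [List.filter_cons_of_pos]
  simpa using SubS.refl r e.1

/-- for a latest superset `p` of `e` the supersets of `e` and of `p` agree -/
theorem ancs_eq_of_split (hp : ProperS r e.1) {l₁ l₂ : List (Cap ℝ)} {p : Cap ℝ}
    (hV : VSR r (l₁ ++ p :: l₂)) (hl₁ : ∀ f ∈ l₁, ¬ SubS r e.1 f.1) (hep : SubS r e.1 p.1) :
    ∀ f ∈ l₁ ++ p :: l₂, SubS r e.1 f.1 ↔ SubS r p.1 f.1 := by
  have hV2 : VSR r (p :: l₂) := by
    clear hl₁
    induction l₁ with
    | nil => exact hV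
    | cons a l ih => exact ih hV.1
  intro f hf
  refine ⟨fun h => ?_, fun h => hep.trans h⟩
  rcases List.mem_append.1 hf with hf | hf
  · exact absurd h (hl₁ f hf)
  · rcases List.mem_cons.1 hf with rfl | hf
    · exact SubS.refl _ _
    · rcases (hV2.2.2.2.1 f hf).1 with h1 | h1
      · exact h1
      · exfalso
        obtain ⟨⟨z, hz, hz'⟩, -⟩ := hp
        exact h1 z hz (hep z hz hz') (h z hz hz')

theorem exists_split_of_parent {p : Cap ℝ} (hpar : parent r G e = some p) :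
    ∃ l₁ l₂, G = l₁ ++ p :: l₂ ∧ (∀ f ∈ l₁, ¬ SubS r e.1 f.1) ∧ SubS r e.1 p.1 := by
  classical
  unfold parent ancs at hpar
  rw [List.head?_filter] at hpar
  rw [List.find?_eq_some_iff_append] at hpar
  obtain ⟨h1, as, bs, h2, h3⟩ := hpar
  refine ⟨as, bs, h2, ?_, by simpa using h1⟩
  intro f hf
  simpa using h3 f hf

theorem parent_eq_none (hpar : parent r G e = none) : ∀ f ∈ G, ¬ SubS r e.1 f.1 := by
  classical
  unfold parent ancs at hpar
  rw [List.head?_filter, List.find?_eq_none] at hpar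
  intro f hf
  simpa using hpar f hf

theorem parent_some (hp : ProperS r e.1) (hV : VSR r G) {p : Cap ℝ}
    (hpar : parent r G e = some p) :
    p ∈ G ∧ SubS r e.1 p.1 ∧ ∀ f ∈ G, SubS r e.1 f.1 ↔ SubS r p.1 f.1 := by
  obtain ⟨l₁, l₂, rfl, h1, h2⟩ := exists_split_of_parent hpar
  exact ⟨by simp, h2, ancs_eq_of_split hp hV h1 h2⟩

theorem ancs_eq_parent (hp : ProperS r e.1) (hV : VSR r G) :
    ancs r G e = ancO r G (parent r G e) := by
  classical
  cases hpar : parent r G e with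
  | none =>
    unfold ancO ancs
    dsimp only
    rw [List.filter_eq_nil_iff]
    intro f hf
    simpa using parent_eq_none hpar f hf
  | some p =>
    obtain ⟨-, -, h3⟩ := parent_some hp hV hpar
    unfold ancO ancs
    dsimp only
    apply List.filter_congr
    intro f hf
    rw [decide_eq_decide]
    exact h3 f hf

theorem mem_stackR (G : List (Cap ℝ)) (k : Option (Cap ℝ)) :
    k ∈ stackR r G ↔ k = none ∨ ∃ e ∈ G, k = some e := by
  induction G with
  | nil => simp [stackR]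
  | cons a G ih =>
    unfold stackR
    split_ifs
    · rw [List.mem_append, ih]
      simp only [List.mem_cons, List.not_mem_nil, or_false, exists_eq_or_imp]
      rw [or_assoc, or_comm (a := ∃ e ∈ G, k = some e)]
    · rw [List.mem_cons, ih]
      simp only [List.mem_cons, exists_eq_or_imp]
      tauto

theorem parent_mem (hp : ProperS r e.1) (hV : VSR r G) : parent r G e ∈ stackR r G := by
  rw [mem_stackR]
  cases hpar : parent r G e with
  | none => exact Or.inl rfl
  | some p => exact Or.inr ⟨p, (parent_some hp hV hpar).1, rfl⟩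

theorem vsr_nodup (hV : VSR r G) : G.Nodup ∧ (stackR r G).Nodup := by
  induction G with
  | nil => simp [stackR]
  | cons a G ih =>
    have h1 : a ∉ G := fun ha => (hV.2.2.2.1 a ha).2 (Or.inl rfl)
    refine ⟨List.nodup_cons.2 ⟨h1, (ih hV.1).1⟩, ?_⟩
    have h2 : some a ∉ stackR r G := by
      rw [mem_stackR]
      rintro (h | ⟨b, hb, h⟩)
      · simp at h
      · rw [Option.some_inj] at h
        exact h1 (h ▸ hb)
    unfold stackR
    split_ifs
    · rw [List.nodup_append]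
      refine ⟨(ih hV.1).2, by simp, ?_⟩
      intro x hx y hy
      rw [List.mem_singleton] at hy
      subst hy
      rintro rfl
      exact h2 hx
    · exact List.nodup_cons.2 ⟨h2, (ih hV.1).2⟩

/-- weak inequalities on the closed cap -/
theorem cap_le_of_disj (hG : Stmt_GEO1) (hr : RecOK r) (hp : ProperS r e.1) {f : Con ℝ}
    (h : DisjS r e.1 f) : ∀ z ∈ capC r e, dotR f.1 z ≤ f.2 := by
  have hc := continuous_dotR hG f.1
  obtain ⟨-, -, -, hG4⟩ := hG
  obtain ⟨-, -, -, -, -, -, -, -, -, -, h11, -⟩ := hG4 r hr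
  intro z hz
  have h1 : z ∈ closure {z | z ∈ RI r ∧ e.1.2 < dotR e.1.1 z} := by
    rw [← h11 e.1 hp]; exact hz
  have h2 : closure {z | z ∈ RI r ∧ e.1.2 < dotR e.1.1 z} ⊆ {z | dotR f.1 z ≤ f.2} := by
    apply closure_minimal
    · rintro z ⟨hz1, hz2⟩
      exact not_lt.1 (h z hz1 hz2)
    · exact isClosed_le hc continuous_const
  exact h2 h1

theorem cap_ge_of_sub (hG : Stmt_GEO1) (hr : RecOK r) (hp : ProperS r e.1) {f : Con ℝ}
    (h : SubS r e.1 f) : ∀ z ∈ capC r e, f.2 ≤ dotR f.1 z := by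
  have hc := continuous_dotR hG f.1
  obtain ⟨-, -, -, hG4⟩ := hG
  obtain ⟨-, -, -, -, -, -, -, -, -, -, h11, -⟩ := hG4 r hr
  intro z hz
  have h1 : z ∈ closure {z | z ∈ RI r ∧ e.1.2 < dotR e.1.1 z} := by
    rw [← h11 e.1 hp]; exact hz
  have h2 : closure {z | z ∈ RI r ∧ e.1.2 < dotR e.1.1 z} ⊆ {z | f.2 ≤ dotR f.1 z} := by
    apply closure_minimal
    · rintro z ⟨hz1, hz2⟩
      exact (h z hz1 hz2).le
    · exact isClosed_le continuous_const hc
  exact h2 h1

/-- Relevant constraints of the parent are disjoint from the new cap. -/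
theorem NewCap.disj_of (hG : Stmt_GEO1) (hr : RecOK r) (hV : VSR r G) (h : NewCap r G e) {p : Cap ℝ}
    (hpar : parent r G e = some p) : ∀ f ∈ G, SubS r f.1 p.1 → f ≠ p → DisjS r e.1 f.1 := by
  intro f hf hfp hne
  rcases (h.pos f hf).1 with h1 | h1
  · exfalso
    obtain ⟨hpG, hep, hiff⟩ := parent_some h.proper hV hpar
    have h2 := (hiff f hf).1 h1
    apply hne
    -- both inclusions
    have hpair : ∀ {G : List (Cap ℝ)}, VSR r G → ∀ a ∈ G, ∀ b ∈ G, SubS r a.1 b.1 →
        SubS r b.1 a.1 → a = b := by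
      intro G
      induction G with
      | nil => simp
      | cons c G ih =>
        intro hV a ha b hb hab hba
        have hnew : NewCap r G c := ⟨hV.2.1, hV.2.2.1, hV.2.2.2.1⟩
        rcases List.mem_cons.1 ha with rfl | ha'
        · rcases List.mem_cons.1 hb with rfl | hb'
          · rfl
          · exact absurd hba (hnew.not_sub hG hr hV.1 b hb')
        · rcases List.mem_cons.1 hb with rfl | hb'
          · exact absurd hab (hnew.not_sub hG hr hV.1 a ha')
          · exact ih hV.1 a ha' b hb' hab hba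
    exact hpair hV f hf p hpG hfp h2
  · exact h1

theorem vsr_antisymm (hG : Stmt_GEO1) (hr : RecOK r) : ∀ {G : List (Cap ℝ)}, VSR r G →
    ∀ a ∈ G, ∀ b ∈ G, SubS r a.1 b.1 → SubS r b.1 a.1 → a = b := by
  intro G
  induction G with
  | nil => simp
  | cons c G ih =>
    intro hV a ha b hb hab hba
    have hnew : NewCap r G c := ⟨hV.2.1, hV.2.2.1, hV.2.2.2.1⟩
    rcases List.mem_cons.1 ha with rfl | ha'
    · rcases List.mem_cons.1 hb with rfl | hb'
      · rfl
      · exact absurd hba (hnew.not_sub hG hr hV.1 b hb')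
    · rcases List.mem_cons.1 hb with rfl | hb'
      · exact absurd hab (hnew.not_sub hG hr hV.1 a ha')
      · exact ih hV.1 a ha' b hb' hab hba

theorem NewCap.capC_subset (hG : Stmt_GEO1) (hr : RecOK r) (hV : VSR r G) (h : NewCap r G e) :
    capC r e ⊆ piece r G (parent r G e) := by
  intro z hz
  cases hpar : parent r G e with
  | none =>
    refine ⟨hz.1, ?_⟩
    intro f hf
    have h1 := parent_eq_none hpar f hf
    have h2 : DisjS r e.1 f.1 := by
      rcases (h.pos f hf).1 with h3 | h3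
      · exact absurd h3 h1
      · exact h3
    exact cap_le_of_disj hG hr h.proper h2 z hz
  | some p =>
    obtain ⟨hpG, hep, hiff⟩ := parent_some h.proper hV hpar
    refine ⟨hz.1, cap_ge_of_sub hG hr h.proper hep z hz, ?_⟩
    intro f hf hfp hne
    exact cap_le_of_disj hG hr h.proper (h.disj_of hG hr hV hpar f hf hfp hne) z hz

theorem NewCap.piece_self (hG : Stmt_GEO1) (hr : RecOK r) (hV : VSR r G) (h : NewCap r G e) :
    piece r (e :: G) (some e) = capC r e := by
  ext z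
  constructor
  · exact fun hz => ⟨hz.1, hz.2.1⟩
  · intro hz
    refine ⟨hz.1, hz.2, ?_⟩
    intro f hf hfe hne
    rcases List.mem_cons.1 hf with rfl | hf
    · exact absurd rfl hne
    · exact absurd hfe (h.not_sub hG hr hV f hf)

theorem NewCap.piece_parent (hV : VSR r G) (h : NewCap r G e) :
    piece r (e :: G) (parent r G e) = piece r G (parent r G e) ∩ {z | dotR e.1.1 z ≤ e.1.2} := by
  ext z
  cases hpar : parent r G e with
  | none =>
    constructor
    · rintro ⟨h1, h2⟩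
      exact ⟨⟨h1, fun f hf => h2 f (List.mem_cons_of_mem _ hf)⟩, h2 e List.mem_cons_self⟩
    · rintro ⟨⟨h1, h2⟩, h3⟩
      refine ⟨h1, fun f hf => ?_⟩
      rcases List.mem_cons.1 hf with rfl | hf
      · exact h3
      · exact h2 f hf
  | some p =>
    obtain ⟨hpG, hep, hiff⟩ := parent_some h.proper hV hpar
    constructor
    · rintro ⟨h1, h2, h3⟩
      refine ⟨⟨h1, h2, fun f hf => h3 f (List.mem_cons_of_mem _ hf)⟩, ?_⟩
      exact h3 e List.mem_cons_self hep (fun hcon => h.notMem (hcon ▸ hpG))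
    · rintro ⟨⟨h1, h2, h3⟩, h4⟩
      refine ⟨h1, h2, fun f hf => ?_⟩
      rcases List.mem_cons.1 hf with rfl | hf
      · exact fun _ _ => h4
      · exact h3 f hf

theorem NewCap.piece_other (hG : Stmt_GEO1) (hr : RecOK r) (hV : VSR r G) (h : NewCap r G e)
    {k : Option (Cap ℝ)} (hk : k ∈ stackR r G) (hkp : k ≠ parent r G e) :
    piece r (e :: G) k = piece r G k := by
  have hstrict : ∀ p ∈ G, SubS r e.1 p.1 → ∀ z ∈ RS r, dotR p.1.1 z ≤ p.1.2 →
      dotR e.1.1 z ≤ e.1.2 := by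
    obtain ⟨-, -, -, hG4⟩ := hG
    obtain ⟨-, -, -, -, -, -, -, -, h9, -⟩ := hG4 r hr
    intro p hp hep z hz hpz
    by_contra hcon
    have := h9 e.1 p.1 (vsr_mem hV p hp).2 hep z hz (not_le.1 hcon)
    linarith
  rw [mem_stackR] at hk
  rcases hk with rfl | ⟨q, hq, rfl⟩
  · -- the root
    cases hpar : parent r G e with
    | none => exact absurd hpar.symm hkp
    | some p =>
      obtain ⟨hpG, hep, hiff⟩ := parent_some h.proper hV hpar
      ext z
      constructor
      · rintro ⟨h1, h2⟩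
        exact ⟨h1, fun f hf => h2 f (List.mem_cons_of_mem _ hf)⟩
      · rintro ⟨h1, h2⟩
        refine ⟨h1, fun f hf => ?_⟩
        rcases List.mem_cons.1 hf with rfl | hf
        · exact hstrict p hpG hep z h1 (h2 p hpG)
        · exact h2 f hf
  · ext z
    constructor
    · rintro ⟨h1, h2, h3⟩
      exact ⟨h1, h2, fun f hf => h3 f (List.mem_cons_of_mem _ hf)⟩
    · rintro ⟨h1, h2, h3⟩
      refine ⟨h1, h2, fun f hf => ?_⟩
      rcases List.mem_cons.1 hf with rfl | hf
      · intro heq _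
        cases hpar : parent r G f with
        | none => exact absurd heq (parent_eq_none hpar q hq)
        | some p =>
          obtain ⟨hpG, hep, hiff⟩ := parent_some h.proper hV hpar
          have h4 := (hiff q hq).1 heq
          have h5 : p ≠ q := by
            rintro rfl
            exact hkp hpar.symm
          exact hstrict p hpG hep z h1 (h3 p hpG h4 h5)
      · exact h3 f hf

theorem NewCap.exists_rest (hG : Stmt_GEO1) (hr : RecOK r) (hV : VSR r G) (h : NewCap r G e) :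
    ∃ z ∈ piece r G (parent r G e), dotR e.1.1 z < e.1.2 := by
  have hsub := dotR_sub hG
  have hcont := continuous_dotR hG
  have hcap := h.capC_subset hG hr hV
  have hdisj : ∀ p, parent r G e = some p → _ := fun p hpar => h.disj_of hG hr hV (p := p) hpar
  obtain ⟨hG1, hG2, hG3, hG4⟩ := hG
  obtain ⟨-, h2, -, h4, -, -, -, -, -, -, -, h12, h13, h14, -⟩ := hG4 r hr
  obtain ⟨z₀, hz₀, hz₀e⟩ := h12 e.1 h.proper
  have hRIRS : RI r ⊆ RS r := by rw [← h2]; exact interior_subset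
  have hz₀cap : z₀ ∈ capC r e := ⟨hRIRS hz₀, hz₀e.ge⟩
  -- disjoint caps are at positive distance from `z₀`
  have hneg : ∀ f ∈ G, DisjS r e.1 f.1 → dotR f.1.1 z₀ ≤ f.1.2 → dotR f.1.1 z₀ < f.1.2 := by
    intro f hf hd hle
    refine lt_of_le_of_ne hle ?_
    intro heq
    obtain ⟨hf8, hfp⟩ := vsr_mem hV f hf
    apply (h.pos f hf).2
    right
    apply h14 e.1 f.1 h.dir hf8 h.proper hfp hd
    intro z hz
    by_contra hcon
    push Not at hcon
    obtain ⟨hc1, hc2, hc3⟩ := hcon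
    have hlt : dotR e.1.1 z < e.1.2 := lt_of_le_of_ne hc1 hc3
    have hse := hsub e.1.1 z z₀
    have hsf := hsub f.1.1 z z₀
    obtain ⟨z', hz', hz'1, hz'2⟩ := exists_near h4 hz₀ (nvec f.1.1) (nvec e.1.1)
      (-(z.1 - z₀.1), -(z.2 - z₀.2)) (hG2 _ hf8).1 (by
        dsimp only; rw [hz₀e] at hse; nlinarith) (by
        dsimp only; rw [hz₀e] at hse; nlinarith)
    rw [← hsub] at hz'1 hz'2
    rw [hz₀e] at hz'2
    rw [heq] at hz'1
    exact hd z' hz' (by linarith) (by linarith)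
  -- enclosing caps are at positive distance
  have hpos : ∀ f ∈ G, SubS r e.1 f.1 → f.1.2 ≤ dotR f.1.1 z₀ → f.1.2 < dotR f.1.1 z₀ := by
    intro f hf hd hle
    refine lt_of_le_of_ne hle ?_
    intro heq
    obtain ⟨hf8, hfp⟩ := vsr_mem hV f hf
    apply (h.pos f hf).2
    left
    apply h13 e.1 f.1 h.dir hf8 h.proper hfp hd
    intro z hz hfz
    by_contra hcon
    rw [not_lt] at hcon
    have hse := hsub e.1.1 z z₀
    have hsf := hsub f.1.1 z z₀
    obtain ⟨z', hz', hz'1, hz'2⟩ := exists_near h4 hz₀ (nvec e.1.1) (-nvec f.1.1)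
      (-(z.1 - z₀.1), -(z.2 - z₀.2)) (hG2 _ h.dir).1 (by
        dsimp only; rw [hz₀e] at hse; nlinarith) (by
        simp only [Prod.fst_neg, Prod.snd_neg]; nlinarith)
    rw [← hsub] at hz'1
    simp only [Prod.fst_neg, Prod.snd_neg] at hz'2
    have hsf' := hsub f.1.1 z' z₀
    rw [hz₀e] at hz'1
    have := hd z' hz' (by linarith)
    nlinarith
  -- move from `z₀` to the other side of the line of `e`
  have hu2 : 0 < (nvec e.1.1).1 * (nvec e.1.1).1 + (nvec e.1.1).2 * (nvec e.1.1).2 := by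
    have hu := (hG2 _ h.dir).1
    by_contra hcon
    have h3 : (nvec e.1.1).1 * (nvec e.1.1).1 + (nvec e.1.1).2 * (nvec e.1.1).2 = 0 :=
      le_antisymm (not_lt.1 hcon) (add_nonneg (mul_self_nonneg _) (mul_self_nonneg _))
    have h4 : (nvec e.1.1).1 = 0 := by
      nlinarith [mul_self_nonneg (nvec e.1.1).1, mul_self_nonneg (nvec e.1.1).2]
    have h5 : (nvec e.1.1).2 = 0 := by
      nlinarith [mul_self_nonneg (nvec e.1.1).1, mul_self_nonneg (nvec e.1.1).2]
    exact hu (Prod.ext h4 h5)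
  have hcz : Tendsto (fun t : ℝ => ((z₀.1 - t * (nvec e.1.1).1, z₀.2 - t * (nvec e.1.1).2) : Pt))
      (𝓝[>] 0) (𝓝 z₀) := by
    apply tendsto_nhdsWithin_of_tendsto_nhds
    have hcont : Continuous (fun t : ℝ =>
        ((z₀.1 - t * (nvec e.1.1).1, z₀.2 - t * (nvec e.1.1).2) : Pt)) := by fun_prop
    have := hcont.tendsto 0
    simpa using this
  have hside : ∀ᶠ t : ℝ in 𝓝[>] 0,
      dotR e.1.1 (z₀.1 - t * (nvec e.1.1).1, z₀.2 - t * (nvec e.1.1).2) < e.1.2 := by
    filter_upwards [self_mem_nhdsWithin] with t ht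
    have h3 := hsub e.1.1 (z₀.1 - t * (nvec e.1.1).1, z₀.2 - t * (nvec e.1.1).2) z₀
    have h5 : 0 < t * ((nvec e.1.1).1 * (nvec e.1.1).1 + (nvec e.1.1).2 * (nvec e.1.1).2) :=
      mul_pos ht hu2
    dsimp only at h3
    rw [hz₀e] at h3
    nlinarith
  have hRI : ∀ᶠ z in 𝓝 z₀, z ∈ RI r := h4.mem_nhds hz₀
  have hall : ∀ (P : Cap ℝ → Prop), (∀ f ∈ G, P f → dotR f.1.1 z₀ < f.1.2) →
      ∀ᶠ z in 𝓝 z₀, ∀ f ∈ G, P f → dotR f.1.1 z ≤ f.1.2 := by
    intro P hP
    have h3 : ∀ f ∈ {f | f ∈ G}, ∀ᶠ z in 𝓝 z₀, P f → dotR f.1.1 z ≤ f.1.2 := by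
      intro f hf
      by_cases hPf : P f
      · have h5 := (hcont f.1.1).tendsto z₀
        filter_upwards [h5.eventually_lt_const (hP f hf hPf)] with z hz _
        exact hz.le
      · exact Eventually.of_forall fun z h => absurd h hPf
    exact (eventually_all_finite (List.finite_toSet G)).2 h3
  cases hpar : parent r G e with
  | none =>
    rw [hpar] at hcap
    have h3 := hall (fun _ => True) (by
      intro f hf _
      have h5 : DisjS r e.1 f.1 := by
        rcases (h.pos f hf).1 with h6 | h6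
        · exact absurd h6 (parent_eq_none hpar f hf)
        · exact h6
      exact hneg f hf h5 ((hcap hz₀cap).2 f hf))
    obtain ⟨t, ht1, ht2⟩ := ((hcz.eventually (hRI.and h3)).and hside).exists
    exact ⟨_, ⟨hRIRS ht1.1, fun f hf => ht1.2 f hf trivial⟩, ht2⟩
  | some p =>
    rw [hpar] at hcap
    obtain ⟨hpG, hep, hiff⟩ := parent_some h.proper hV hpar
    have h3 := hall (fun f => SubS r f.1 p.1 ∧ f ≠ p) (by
      rintro f hf ⟨hfp, hne⟩
      exact hneg f hf (hdisj p hpar f hf hfp hne) ((hcap hz₀cap).2.2 f hf hfp hne))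
    have h5 : ∀ᶠ z in 𝓝 z₀, p.1.2 < dotR p.1.1 z :=
      ((hcont p.1.1).tendsto z₀).eventually_const_lt (hpos p hpG hep (hcap hz₀cap).2.1)
    obtain ⟨t, ht1, ht2⟩ := ((hcz.eventually (hRI.and (h3.and h5))).and hside).exists
    exact ⟨_, ⟨hRIRS ht1.1, ht1.2.2.le, fun f hf hfp hne => ht1.2.1 f hf ⟨hfp, hne⟩⟩, ht2⟩

theorem vsr_cover (hG : Stmt_GEO1) (hr : RecOK r) : ∀ {G : List (Cap ℝ)}, VSR r G →
    ∀ z ∈ RS r, ∃ k ∈ stackR r G, z ∈ piece r G k := by
  intro G
  induction G with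
  | nil => intro _ z hz; exact ⟨none, by simp [stackR], hz, by simp⟩
  | cons a G ih =>
    intro hV z hz
    have hnew : NewCap r G a := ⟨hV.2.1, hV.2.2.1, hV.2.2.2.1⟩
    obtain ⟨k, hk, hzk⟩ := ih hV.1 z hz
    have hk' : k ∈ stackR r (a :: G) := by
      rw [mem_stackR] at hk ⊢
      rcases hk with rfl | ⟨b, hb, rfl⟩
      · exact Or.inl rfl
      · exact Or.inr ⟨b, List.mem_cons_of_mem _ hb, rfl⟩
    by_cases hkp : k = parent r G a
    · rcases le_or_gt (dotR a.1.1 z) a.1.2 with h1 | h1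
      · refine ⟨k, hk', ?_⟩
        rw [hkp, hnew.piece_parent hV.1]
        rw [hkp] at hzk
        exact ⟨hzk, h1⟩
      · refine ⟨some a, ?_, ?_⟩
        · rw [mem_stackR]; exact Or.inr ⟨a, List.mem_cons_self, rfl⟩
        · rw [hnew.piece_self hG hr hV.1]
          exact ⟨hz, h1.le⟩
    · exact ⟨k, hk', by rw [hnew.piece_other hG hr hV.1 hk hkp]; exact hzk⟩

end

/-- BLOCK SEM0 -/
theorem stmt_SEM0 (hG : Stmt_GEO1) : Stmt_SEM0 := by
  intro r hr G hV
  refine ⟨vsr_mem hV, vsr_pair hV, vsr_antisymm hG hr hV, (vsr_nodup hV).1, (vsr_nodup hV).2,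
    mem_stackR G, vsr_cover hG hr hV, ?_⟩
  intro e he8 hep hpos
  have h : NewCap r G e := ⟨he8, hep, hpos⟩
  exact ⟨h.notMem, h.not_sub hG hr hV, h.ancs_eq hG hr hV, NewCap.ancs_self, ancs_eq_parent hep hV,
    parent_mem hep hV, h.capC_subset hG hr hV, h.piece_self hG hr hV, h.piece_parent hV,
    fun k hk hkp => h.piece_other hG hr hV hk hkp, h.exists_rest hG hr hV⟩

end Pool.Agent.Work.MP_bd4052_lc
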