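import Pool.Agent.Work.MP_bd4052_lc_helper23.Sem0

/-!
# MP_bd4052_lc, block SEM1: a valid new cap can be folded
-/

set_option autoImplicit false

namespace Pool.Agent.Work.MP_bd4052_lc

open Filter Topology

variable {r : Rec ℝ}

/-- the layer of a piece -/
noncomputable def layR (r : Rec ℝ) (G : List (Cap ℝ)) (k : Option (Cap ℝ)) : Layer :=
  ⟨piece r G k, gm (ancO r G k), decide ((ancO r G k).length % 2 = 1)⟩

theorem piece_subset (r : Rec ℝ) (G : List (Cap ℝ)) (k : Option (Cap ℝ)) : piece r G k ⊆ RS r := by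
  intro w hw
  cases k with
  | none => exact hw.1
  | some p => exact hw.1

theorem stateR_layers (r : Rec ℝ) (G : List (Cap ℝ)) :
    (stateR r G).layers = (stackR r G).map (layR r G) := rfl

section

variable {G : List (Cap ℝ)} {e : Cap ℝ}

theorem NewCap.ancO_eq (hG : Stmt_GEO1) (hr : RecOK r) (hV : VSR r G) (h : NewCap r G e)
    {k : Option (Cap ℝ)} (hk : k ∈ stackR r G) : ancO r (e :: G) k = ancO r G k := by
  rw [mem_stackR] at hk
  rcases hk with rfl | ⟨q, hq, rfl⟩
  · rfl
  · exact h.ancs_eq hG hr hV q hq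

theorem NewCap.layR_other (hG : Stmt_GEO1) (hr : RecOK r) (hV : VSR r G) (h : NewCap r G e)
    {k : Option (Cap ℝ)} (hk : k ∈ stackR r G) (hkp : k ≠ parent r G e) :
    layR r (e :: G) k = layR r G k := by
  unfold layR
  rw [h.ancO_eq hG hr hV hk, h.piece_other hG hr hV hk hkp]

/-- the points of the other pieces are not beyond the line of the new cap -/
theorem NewCap.notear (hG : Stmt_GEO1) (hr : RecOK r) (hV : VSR r G) (h : NewCap r G e)
    {k : Option (Cap ℝ)} (hk : k ∈ stackR r G) (hkp : k ≠ parent r G e) :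
    ∀ z ∈ piece r G k, dotR e.1.1 z ≤ e.1.2 := by
  intro z hz
  have hpe := h.piece_other hG hr hV hk hkp
  rw [← hpe] at hz
  obtain ⟨-, -, -, hG4⟩ := hG
  obtain ⟨-, -, -, -, -, -, -, -, -, h10, -⟩ := hG4 r hr
  rw [mem_stackR] at hk
  rcases hk with rfl | ⟨q, hq, rfl⟩
  · exact hz.2 e List.mem_cons_self
  · rcases (h.pos q hq).1 with h1 | h1
    · exact hz.2.2 e List.mem_cons_self h1 (fun hcon => h.notMem (hcon ▸ hq))
    · by_contra hcon
      have h2 := h10 e.1 q.1 (vsr_mem hV q hq).2 h1 z hz.1 (not_le.1 hcon)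
      have h3 := hz.2.1
      linarith

theorem mem_of_not_mem_split {k : Option (Cap ℝ)} {l₁ l₂ : List (Option (Cap ℝ))}
    (hsplit : stackR r G = l₁ ++ k :: l₂) (hV : VSR r G) {k' : Option (Cap ℝ)}
    (hk' : k' ∈ l₁ ++ l₂) : k' ∈ stackR r G ∧ k' ≠ k := by
  have hnd := (vsr_nodup hV).2
  rw [hsplit] at hnd ⊢
  rw [List.nodup_middle] at hnd
  obtain ⟨h1, h2⟩ := List.nodup_cons.1 hnd
  refine ⟨?_, ?_⟩
  · rw [List.mem_append] at hk' ⊢
    rcases hk' with h | h
    · exact Or.inl h
    · exact Or.inr (List.mem_cons_of_mem _ h)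
  · rintro rfl
    exact h1 hk'

end

/-- the equation of the line in the plane -/
structure LineData (r : Rec ℝ) (G : List (Cap ℝ)) (e : Cap ℝ) (a : Pt) (c τ : ℝ) : Prop where
  pos : 0 < τ
  eq : ∀ z, a.1 * (gm (ancs r G e) z).1 + a.2 * (gm (ancs r G e) z).2 - c =
    τ * (dotR e.1.1 z - e.1.2)
  refl : ∀ z, refl a c (gm (ancs r G e) z) = gm (ancs r G e) (rf e.1 z)

section

variable {G : List (Cap ℝ)} {e : Cap ℝ} {a : Pt} {c τ : ℝ}

theorem LineData.le_iff (h : LineData r G e a c τ) (z : Pt) :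
    a.1 * (gm (ancs r G e) z).1 + a.2 * (gm (ancs r G e) z).2 ≤ c ↔ dotR e.1.1 z ≤ e.1.2 := by
  have h1 := h.eq z
  have h2 := h.pos
  constructor
  · intro h3; by_contra h4; rw [not_le] at h4
    have := mul_pos h2 (sub_pos.2 h4); linarith
  · intro h3
    have := mul_nonneg h2.le (sub_nonneg.2 h3); nlinarith

theorem LineData.ge_iff (h : LineData r G e a c τ) (z : Pt) :
    c ≤ a.1 * (gm (ancs r G e) z).1 + a.2 * (gm (ancs r G e) z).2 ↔ e.1.2 ≤ dotR e.1.1 z := by
  have h1 := h.eq z
  have h2 := h.pos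
  constructor
  · intro h3; by_contra h4; rw [not_le] at h4
    have := mul_pos h2 (sub_pos.2 h4); nlinarith
  · intro h3
    have := mul_nonneg h2.le (sub_nonneg.2 h3); linarith

theorem LineData.eq_iff (h : LineData r G e a c τ) (z : Pt) :
    a.1 * (gm (ancs r G e) z).1 + a.2 * (gm (ancs r G e) z).2 = c ↔ dotR e.1.1 z = e.1.2 := by
  constructor
  · intro h3
    exact le_antisymm ((h.le_iff z).1 h3.le) ((h.ge_iff z).1 h3.ge)
  · intro h3
    exact le_antisymm ((h.le_iff z).2 h3.le) ((h.ge_iff z).2 h3.ge)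

theorem NewCap.rot_eq (hG : Stmt_GEO1) (hr : RecOK r) (hV : VSR r G) (h : NewCap r G e)
    (hd : LineData r G e a c τ) : (layR r G (parent r G e)).rot a c = capC r e := by
  have hcap := h.capC_subset hG hr hV
  have hanc := ancs_eq_parent h.proper hV
  ext z
  have h2 := hd.ge_iff z
  rw [hanc] at h2
  constructor
  · rintro ⟨h3, h4⟩
    exact ⟨piece_subset r G _ h3, h2.1 h4⟩
  · intro h3
    exact ⟨hcap h3, h2.2 h3.2⟩

/-- the layers of the new state -/
theorem NewCap.layers_eq (hG : Stmt_GEO1) (hr : RecOK r) (hV : VSR r G) (h : NewCap r G e)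
    (hd : LineData r G e a c τ) {l₁ l₂ : List (Option (Cap ℝ))}
    (hsplit : stackR r G = l₁ ++ parent r G e :: l₂) :
    (stateR r (e :: G)).layers = if upR r G e then
      l₁.map (layR r G) ++ ⟨(layR r G (parent r G e)).rest a c, (layR r G (parent r G e)).g,
        (layR r G (parent r G e)).flip⟩ :: l₂.map (layR r G) ++
        [⟨(layR r G (parent r G e)).rot a c,
          fun z => Pool.Agent.Work.MP_bd4052_lc.refl a c ((layR r G (parent r G e)).g z),
          !(layR r G (parent r G e)).flip⟩]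
    else ⟨(layR r G (parent r G e)).rot a c,
          fun z => Pool.Agent.Work.MP_bd4052_lc.refl a c ((layR r G (parent r G e)).g z),
          !(layR r G (parent r G e)).flip⟩ :: (l₁.map (layR r G) ++
          ⟨(layR r G (parent r G e)).rest a c, (layR r G (parent r G e)).g,
            (layR r G (parent r G e)).flip⟩ :: l₂.map (layR r G)) := by
  have hpm := parent_mem h.proper hV
  have hanc := ancs_eq_parent h.proper hV
  have hrot := h.rot_eq hG hr hV hd
  have hother : ∀ k' ∈ l₁ ++ l₂, k' ∈ stackR r G ∧ k' ≠ parent r G e := fun k' hk' =>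
    mem_of_not_mem_split hsplit hV hk'
  have hmap : ∀ l : List (Option (Cap ℝ)), (∀ k' ∈ l, k' ∈ l₁ ++ l₂) →
      l.map (layR r (e :: G)) = l.map (layR r G) := by
    intro l hl
    apply List.map_congr_left
    intro k' hk'
    obtain ⟨h1, h2⟩ := hother k' (hl k' hk')
    exact h.layR_other hG hr hV h1 h2
  have hm1 : l₁.map (layR r (e :: G)) = l₁.map (layR r G) :=
    hmap l₁ fun k' hk' => List.mem_append_left _ hk'
  have hm2 : l₂.map (layR r (e :: G)) = l₂.map (layR r G) :=
    hmap l₂ fun k' hk' => List.mem_append_right _ hk'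
  have hrest : layR r (e :: G) (parent r G e) = ⟨(layR r G (parent r G e)).rest a c,
      (layR r G (parent r G e)).g, (layR r G (parent r G e)).flip⟩ := by
    have h1 : piece r (e :: G) (parent r G e) = (layR r G (parent r G e)).rest a c := by
      rw [h.piece_parent hV]
      ext z
      have h2 := hd.le_iff z
      rw [hanc] at h2
      constructor
      · rintro ⟨h3, h4⟩
        exact ⟨h3, h2.2 h4⟩
      · rintro ⟨h3, h4⟩
        exact ⟨h3, h2.1 h4⟩
    unfold layR at h1 ⊢
    rw [h.ancO_eq hG hr hV hpm, h1]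
  have hnew : layR r (e :: G) (some e) = ⟨(layR r G (parent r G e)).rot a c,
      fun z => Pool.Agent.Work.MP_bd4052_lc.refl a c ((layR r G (parent r G e)).g z),
      !(layR r G (parent r G e)).flip⟩ := by
    rw [hrot]
    unfold layR
    rw [h.piece_self hG hr hV]
    have h1 : ancO r (e :: G) (some e) = e :: ancs r G e := NewCap.ancs_self
    rw [h1]
    congr 1
    · funext z
      change gm (ancs r G e) (rf e.1 z) =
        Pool.Agent.Work.MP_bd4052_lc.refl a c (gm (ancO r G (parent r G e)) z)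
      rw [← hanc, hd.refl]
    · rw [← hanc, List.length_cons]
      rcases Nat.mod_two_eq_zero_or_one (ancs r G e).length with h2 | h2
      · simp [Nat.add_mod, h2]
      · simp [Nat.add_mod, h2]
  rw [stateR_layers]
  conv_lhs => unfold stackR
  by_cases hup : upR r G e = true
  · rw [if_pos hup, if_pos hup, hsplit, List.map_append, List.map_append, List.map_cons, hm1, hm2,
      hrest]
    simp only [List.map_cons, List.map_nil, hnew, List.append_assoc, List.cons_append]
  · rw [if_neg hup, if_neg hup, List.map_cons, hsplit, List.map_append, List.map_cons, hm1, hm2,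
      hrest, hnew]

/-- the folds of the new state -/
theorem NewCap.folds_eq (hG : Stmt_GEO1) (hr : RecOK r) (hV : VSR r G) (h : NewCap r G e)
    (hd : LineData r G e a c τ) (b : Bool) :
    (stateR r (e :: G)).fold b = if b = (upR r G e != (layR r G (parent r G e)).flip) then
      (stateR r G).fold b ∪ {z | z ∈ (layR r G (parent r G e)).S ∧
        a.1 * ((layR r G (parent r G e)).g z).1 + a.2 * ((layR r G (parent r G e)).g z).2 = c}
    else (stateR r G).fold b := by
  have hcap := h.capC_subset hG hr hV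
  have hanc := ancs_eq_parent h.proper hV
  have h1 : (upR r G e != (layR r G (parent r G e)).flip) = e.2 := by
    unfold upR layR
    rw [← hanc]
    cases e.2 <;> cases decide ((ancs r G e).length % 2 = 1) <;> rfl
  rw [h1]
  split_ifs with hb
  · ext z
    have h2 := hd.eq_iff z
    rw [hanc] at h2
    unfold stateR
    simp only [Set.mem_union, Set.mem_ofPred_eq, List.mem_cons, exists_eq_or_imp]
    constructor
    · rintro ⟨h3, h4 | h4⟩
      · right
        exact ⟨hcap ⟨h3, h4.2.ge⟩, h2.2 h4.2⟩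
      · exact Or.inl ⟨h3, h4⟩
    · rintro (⟨h3, h4⟩ | ⟨h3, h4⟩)
      · exact ⟨h3, Or.inr h4⟩
      · exact ⟨piece_subset r G _ h3, Or.inl ⟨hb.symm, h2.1 h4⟩⟩
  · ext z
    unfold stateR
    simp only [Set.mem_ofPred_eq, List.mem_cons, exists_eq_or_imp]
    constructor
    · rintro ⟨h3, h4 | h4⟩
      · exact absurd h4.1.symm hb
      · exact ⟨h3, h4⟩
    · rintro ⟨h3, h4⟩
      exact ⟨h3, Or.inr h4⟩

end

/-- BLOCK SEM1 -/
theorem stmt_SEM1 (hG : Stmt_GEO1) (hR : Stmt_REF) : Stmt_SEM1 := by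
  intro r hr G e hV
  have hVG := hV.1
  have h : NewCap r G e := ⟨hV.2.1, hV.2.2.1, hV.2.2.2.1⟩
  have hfree := hV.2.2.2.2
  have hpm := parent_mem h.proper hVG
  have hanc := ancs_eq_parent h.proper hVG
  have hcap := h.capC_subset hG hr hVG
  have hRIRS : RI r ⊆ RS r := by
    obtain ⟨-, -, -, hG4⟩ := hG
    obtain ⟨-, h2, -⟩ := hG4 r hr
    rw [← h2]; exact interior_subset
  obtain ⟨l₁, l₂, hsplit⟩ := List.append_of_mem hpm
  -- the line in the plane
  have hl8 : ∀ f ∈ ancs r G e, f.1.1 < 8 := by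
    classical
    intro f hf
    exact (vsr_mem hVG f (List.mem_of_mem_filter hf)).1
  obtain ⟨-, -, hR3, -⟩ := hR
  obtain ⟨-, -, -, -, hR4⟩ := hR3 (ancs r G e) hl8
  obtain ⟨a, c, ha, hac, hrefl⟩ := hR4 (nvec e.1.1) e.1.2 (hG.2.1 _ h.dir).1
  have hd : LineData r G e a c 1 := by
    refine ⟨one_pos, fun z => ?_, fun z => ?_⟩
    · rw [hac, hG.1, one_mul]
    · rw [hrefl]; rfl
  have hother : ∀ k' ∈ l₁ ++ l₂, k' ∈ stackR r G ∧ k' ≠ parent r G e := fun k' hk' =>
    mem_of_not_mem_split hsplit hVG hk'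
  refine ⟨l₁.map (layR r G), l₂.map (layR r G), layR r G (parent r G e), a, c, upR r G e, ?_, ha,
    ?_, ?_, ?_, ?_, h.layers_eq hG hr hVG hd hsplit, h.folds_eq hG hr hVG hd⟩
  · rw [stateR_layers, hsplit, List.map_append, List.map_cons]
  · -- cross₁
    obtain ⟨⟨z, hz, hz'⟩, -⟩ := h.proper
    refine ⟨z, hcap ⟨hRIRS hz, hz'.le⟩, ?_⟩
    have h2 := hd.le_iff z
    rw [hanc] at h2
    exact lt_of_not_ge fun h3 => absurd (h2.1 h3) (not_le.2 hz')
  · -- cross₂
    obtain ⟨z, hz, hz'⟩ := h.exists_rest hG hr hVG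
    refine ⟨z, hz, ?_⟩
    have h2 := hd.ge_iff z
    rw [hanc] at h2
    exact lt_of_not_ge fun h3 => absurd (h2.1 h3) (not_le.2 hz')
  · -- notear
    intro L' hL' z _ hzL'
    rw [← List.map_append] at hL'
    obtain ⟨k', hk', rfl⟩ := List.mem_map.1 hL'
    obtain ⟨h1, h2⟩ := hother k' hk'
    have h3 := h.notear hG hr hVG h1 h2 z hzL'
    have h4 := hd.le_iff z
    rw [hanc] at h4
    exact h4.2 h3
  · -- free
    intro L' hL'
    have h1 : L' ∈ (if upR r G e then l₂ else l₁).map (layR r G) := by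
      split_ifs at hL' ⊢ <;> exact hL'
    obtain ⟨k', hk', rfl⟩ := List.mem_map.1 h1
    rw [h.rot_eq hG hr hVG hd]
    have h2 := hfree l₁ l₂ hsplit k' hk'
    rw [hanc] at h2
    exact h2

end Pool.Agent.Work.MP_bd4052_lc
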