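import Pool.Agent.Work.MP_bd4052_lc_helper23.Sem1

/-!
# MP_bd4052_lc, block SEM2: every simple fold is the fold along a cap
-/

set_option autoImplicit false

namespace Pool.Agent.Work.MP_bd4052_lc

open Filter Topology

variable {r : Rec ℝ}

theorem isClosed_piece (hG : Stmt_GEO1) (hr : RecOK r) (G : List (Cap ℝ)) (k : Option (Cap ℝ)) :
    IsClosed (piece r G k) := by
  have hcont := continuous_dotR hG
  obtain ⟨-, -, -, hG4⟩ := hG
  obtain ⟨-, -, h3, -⟩ := hG4 r hr
  have hRS : IsClosed (RS r) := by rw [← h3]; exact isClosed_closure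
  cases k with
  | none =>
    have : piece r G none = RS r ∩ ⋂ f ∈ {f | f ∈ G}, {z | dotR f.1.1 z ≤ f.1.2} := by
      ext z
      simp only [piece, Set.mem_ofPred_eq, Set.mem_inter_iff, Set.mem_iInter]
    rw [this]
    exact hRS.inter (isClosed_biInter fun f _ => isClosed_le (hcont _) continuous_const)
  | some e =>
    have : piece r G (some e) = (RS r ∩ {z | e.1.2 ≤ dotR e.1.1 z}) ∩
        ⋂ f ∈ {f | f ∈ G ∧ SubS r f.1 e.1 ∧ f ≠ e}, {z | dotR f.1.1 z ≤ f.1.2} := by
      ext z
      simp only [piece, Set.mem_ofPred_eq, Set.mem_inter_iff, Set.mem_iInter, and_assoc, and_imp]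
    rw [this]
    exact (hRS.inter (isClosed_le continuous_const (hcont _))).inter
      (isClosed_biInter fun f _ => isClosed_le (hcont _) continuous_const)

theorem convex_halfplane (a : Pt) (c : ℝ) : Convex ℝ {z : Pt | c < a.1 * z.1 + a.2 * z.2} := by
  intro x hx y hy s t hs ht hst
  simp only [Set.mem_ofPred_eq, Prod.fst_add, Prod.snd_add, Prod.smul_fst, Prod.smul_snd,
    smul_eq_mul] at hx hy ⊢
  have hs' : s = 1 - t := by linarith
  subst hs'
  rcases eq_or_lt_of_le ht with h | h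
  · subst h; simp only [sub_zero, one_mul, zero_mul, add_zero]; exact hx
  · have h1 := mul_lt_mul_of_pos_left hy h
    have h2 := mul_le_mul_of_nonneg_left hx.le hs
    nlinarith

/-- the convex part beyond the line lies in one piece -/
theorem cap_subset_piece (hG : Stmt_GEO1) (hr : RecOK r) {G : List (Cap ℝ)} (hV : VSR r G)
    {k : Option (Cap ℝ)} (a : Pt) (c : ℝ)
    (hcross : ∃ z ∈ piece r G k, c < a.1 * z.1 + a.2 * z.2)
    (hnotear : ∀ k' ∈ stackR r G, k' ≠ k → ∀ z ∈ piece r G k, z ∈ piece r G k' →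
      a.1 * z.1 + a.2 * z.2 ≤ c) :
    ∀ z ∈ RS r, c < a.1 * z.1 + a.2 * z.2 → z ∈ piece r G k := by
  have hcover := vsr_cover hG hr hV
  have hclosed := isClosed_piece hG hr G
  obtain ⟨-, -, -, hG4⟩ := hG
  obtain ⟨-, -, -, -, -, -, hconv, -⟩ := hG4 r hr
  set C := RS r ∩ {z : Pt | c < a.1 * z.1 + a.2 * z.2} with hC
  have hCconv : Convex ℝ C := hconv.inter (convex_halfplane a c)
  have hpre : IsPreconnected C := hCconv.isPreconnected
  rw [isPreconnected_closed_iff] at hpre
  set O : Set Pt := ⋃ k' ∈ {k' | k' ∈ stackR r G ∧ k' ≠ k}, piece r G k' with hO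
  have hOc : IsClosed O := by
    have hfin : {k' | k' ∈ stackR r G ∧ k' ≠ k}.Finite :=
      (List.finite_toSet (stackR r G)).subset fun k' hk' => hk'.1
    exact hfin.isClosed_biUnion fun k' _ => hclosed k'
  intro z hz hzc
  by_contra hcon
  have hsub : C ⊆ piece r G k ∪ O := by
    intro w hw
    obtain ⟨k', hk', hwk'⟩ := hcover w hw.1
    by_cases h : k' = k
    · subst h; exact Or.inl hwk'
    · right
      exact Set.mem_iUnion₂.2 ⟨k', ⟨hk', h⟩, hwk'⟩
  have h1 : (C ∩ piece r G k).Nonempty := by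
    obtain ⟨w, hw, hw'⟩ := hcross
    exact ⟨w, ⟨piece_subset r G k hw, hw'⟩, hw⟩
  have h2 : (C ∩ O).Nonempty := by
    refine ⟨z, ⟨hz, hzc⟩, ?_⟩
    rcases hsub ⟨hz, hzc⟩ with h | h
    · exact absurd h hcon
    · exact h
  obtain ⟨w, hw, hw1, hw2⟩ := hpre _ _ (hclosed k) hOc hsub h1 h2
  obtain ⟨k', ⟨hk', hne⟩, hwk'⟩ := Set.mem_iUnion₂.1 hw2
  have h3 := hnotear k' hk' hne w hw1 hwk'
  exact absurd hw.2 (not_lt.2 h3)

/-- the chord belongs to the same piece -/
theorem chord_subset_piece (hG : Stmt_GEO1) (hr : RecOK r) {G : List (Cap ℝ)}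
    {k : Option (Cap ℝ)} (a : Pt) (c : ℝ)
    (hcross : ∃ z ∈ piece r G k, c < a.1 * z.1 + a.2 * z.2)
    (hcap : ∀ z ∈ RS r, c < a.1 * z.1 + a.2 * z.2 → z ∈ piece r G k) :
    ∀ z ∈ RS r, a.1 * z.1 + a.2 * z.2 = c → z ∈ piece r G k := by
  have hclosed := isClosed_piece hG hr G k
  obtain ⟨-, -, -, hG4⟩ := hG
  obtain ⟨-, -, -, -, -, -, hconv, -⟩ := hG4 r hr
  intro z hz hzc
  obtain ⟨w, hw, hw'⟩ := hcross
  have hwRS := piece_subset r G k hw
  have hcont : Continuous (fun t : ℝ => (((1 - t) * z.1 + t * w.1, (1 - t) * z.2 + t * w.2) : Pt)) := by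
    fun_prop
  have hlim : Tendsto (fun t : ℝ => (((1 - t) * z.1 + t * w.1, (1 - t) * z.2 + t * w.2) : Pt))
      (𝓝[>] 0) (𝓝 z) := by
    apply tendsto_nhdsWithin_of_tendsto_nhds
    have := hcont.tendsto 0
    simpa using this
  refine hclosed.mem_of_tendsto hlim ?_
  have h1 : Set.Ioo (0 : ℝ) 1 ∈ 𝓝[>] (0 : ℝ) := Ioo_mem_nhdsGT one_pos
  filter_upwards [h1] with t ht
  apply hcap
  · have := hconv hz hwRS (sub_nonneg.2 ht.2.le) ht.1.le (by ring)
    convert this using 1
    ext <;> simp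
  · dsimp only
    have h2 := mul_pos ht.1 (sub_pos.2 hw')
    nlinarith

/-- The geometric part of SEM2: which cap is cut off. -/
theorem newCap_of_line (hG : Stmt_GEO1) (hr : RecOK r) {G : List (Cap ℝ)} (hV : VSR r G)
    {k : Option (Cap ℝ)} (hk : k ∈ stackR r G) (e : Cap ℝ) (he8 : e.1.1 < 8)
    (hep : ProperS r e.1)
    (hcap : ∀ z ∈ RS r, e.1.2 < dotR e.1.1 z → z ∈ piece r G k)
    (hrest : ∃ z ∈ piece r G k, dotR e.1.1 z < e.1.2) :
    NewCap r G e ∧ parent r G e = k := by
  have hcont := continuous_dotR hG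
  have hsub := dotR_sub hG
  have hmem := vsr_mem hV
  have hpair := vsr_pair hV
  have hanti := vsr_antisymm hG hr hV
  obtain ⟨hG1, hG2, hG3, hG4⟩ := hG
  obtain ⟨-, h2, -, h4, -, -, -, -, h9, h10, -, -, -, -, -⟩ := hG4 r hr
  have hRIRS : RI r ⊆ RS r := by rw [← h2]; exact interior_subset
  obtain ⟨z₁, hz₁, hz₁e⟩ := hep.1
  obtain ⟨z₂, hz₂, hz₂e⟩ := hrest
  have hz₂RS := piece_subset r G k hz₂
  -- the piece of a cap: the new cap is contained in it
  have hsubp : ∀ p, k = some p → SubS r e.1 p.1 := by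
    rintro p rfl z hz hze
    have h5 := (hcap z (hRIRS hz) hze).2.1
    refine lt_of_le_of_ne h5 ?_
    intro heq
    -- move against the normal of `p`
    have hp8 : p.1.1 < 8 := by
      rw [mem_stackR] at hk
      rcases hk with hk | ⟨q, hq, hkq⟩
      · simp at hk
      · rw [Option.some_inj] at hkq
        rw [hkq]; exact (hmem q hq).1
    have hu2 : 0 < (nvec p.1.1).1 * (nvec p.1.1).1 + (nvec p.1.1).2 * (nvec p.1.1).2 := by
      have hu := (hG2 _ hp8).1
      by_contra hcon
      have h3 : (nvec p.1.1).1 * (nvec p.1.1).1 + (nvec p.1.1).2 * (nvec p.1.1).2 = 0 :=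
        le_antisymm (not_lt.1 hcon) (add_nonneg (mul_self_nonneg _) (mul_self_nonneg _))
      have h4 : (nvec p.1.1).1 = 0 := by
        nlinarith [mul_self_nonneg (nvec p.1.1).1, mul_self_nonneg (nvec p.1.1).2]
      have h5 : (nvec p.1.1).2 = 0 := by
        nlinarith [mul_self_nonneg (nvec p.1.1).1, mul_self_nonneg (nvec p.1.1).2]
      exact hu (Prod.ext h4 h5)
    have hcz : Tendsto (fun t : ℝ => ((z.1 - t * (nvec p.1.1).1, z.2 - t * (nvec p.1.1).2) : Pt))
        (𝓝[>] 0) (𝓝 z) := by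
      apply tendsto_nhdsWithin_of_tendsto_nhds
      have hcont' : Continuous (fun t : ℝ =>
          ((z.1 - t * (nvec p.1.1).1, z.2 - t * (nvec p.1.1).2) : Pt)) := by fun_prop
      have := hcont'.tendsto 0
      simpa using this
    have hRI : ∀ᶠ w in 𝓝 z, w ∈ RI r := h4.mem_nhds hz
    have hopen : ∀ᶠ w in 𝓝 z, w ∈ RI r ∧ e.1.2 < dotR e.1.1 w :=
      hRI.and (((hcont e.1.1).tendsto z).eventually_const_lt hze)
    obtain ⟨t, ⟨ht1, ht1'⟩, ht2⟩ := ((hcz.eventually hopen).and self_mem_nhdsWithin).exists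
    have h6 := (hcap _ (hRIRS ht1) ht1').2.1
    have h7 := hsub p.1.1 (z.1 - t * (nvec p.1.1).1, z.2 - t * (nvec p.1.1).2) z
    have h8 : 0 < t * ((nvec p.1.1).1 * (nvec p.1.1).1 + (nvec p.1.1).2 * (nvec p.1.1).2) :=
      mul_pos ht2 hu2
    dsimp only at h7
    nlinarith
  have hkmem : ∀ p, k = some p → p ∈ G := by
    rintro p rfl
    rw [mem_stackR] at hk
    rcases hk with hk | ⟨q, hq, hkq⟩
    · simp at hk
    · rw [Option.some_inj] at hkq
      rw [hkq]; exact hq
  -- classification of the old caps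
  have hcls : ∀ f ∈ G, (SubS r e.1 f.1 ∧ ∃ p, k = some p ∧ SubS r p.1 f.1) ∨
      (DisjS r e.1 f.1 ∧ (k = none ∨ ∃ p, k = some p ∧ ((SubS r f.1 p.1 ∧ f ≠ p) ∨
        DisjS r p.1 f.1))) := by
    intro f hf
    cases hkk : k with
    | none =>
      right
      refine ⟨?_, Or.inl rfl⟩
      intro z hz hze
      have := hcap z (hRIRS hz) hze
      rw [hkk] at this
      exact not_lt.2 (this.2 f hf)
    | some p =>
      by_cases hfp : f = p
      · left
        rw [hfp]
        exact ⟨hsubp p hkk, p, rfl, SubS.refl _ _⟩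
      · rcases hpair f hf p (hkmem p hkk) with h | h | h
        · right
          refine ⟨?_, Or.inr ⟨p, rfl, Or.inl ⟨h, hfp⟩⟩⟩
          intro z hz hze
          have h5 := hcap z (hRIRS hz) hze
          rw [hkk] at h5
          exact not_lt.2 (h5.2.2 f hf h hfp)
        · left
          exact ⟨(hsubp p hkk).trans h, p, rfl, h⟩
        · right
          refine ⟨?_, Or.inr ⟨p, rfl, Or.inr h.symm⟩⟩
          intro z hz hze hzf
          exact h z hz hzf (hsubp p hkk z hz hze)
  have hnew : NewCap r G e := by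
    refine ⟨he8, hep, fun f hf => ⟨?_, ?_⟩⟩
    · rcases hcls f hf with h | h
      · exact Or.inl h.1
      · exact Or.inr h.1
    · rintro (heq | heq)
      · -- the same cap
        rcases hcls f hf with ⟨-, p, hkp, hpf⟩ | ⟨h, -⟩
        · -- then `p ⊆ f = e ⊆ p`, and the piece is contained in the cap
          have hz₂' := hz₂
          rw [hkp] at hz₂'
          -- `e = f` as constraints and `p ⊆ f`
          by_cases hpc : p.1.2 < dotR p.1.1 z₂
          · have := h9 p.1 f.1 (hmem f hf).2 hpf z₂ hz₂RS hpc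
            rw [← heq] at this
            linarith
          · -- on the boundary of `p`: `p = e` as sets
            have h5 : SubS r p.1 e.1 := by rw [heq]; exact hpf
            have h6 : SubS r f.1 p.1 := by rw [← heq]; exact hsubp p hkp
            have h7 := hanti f hf p (hkmem p hkp) h6 hpf
            have h8 := hz₂'.2.1
            rw [← h7, ← heq] at h8
            linarith
        · exact h z₁ hz₁ hz₁e (by rw [← heq]; exact hz₁e)
      · -- the opposite cap
        have hopp : ∀ z, dotR e.1.1 z < e.1.2 → f.1.2 < dotR f.1.1 z := by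
          intro z hz
          rw [heq] at hz
          have h5 := (hG2 f.1.1 (hmem f hf).1).2 z
          change dotR ((f.1.1 + 4) % 8) z < -f.1.2 at hz
          rw [h5] at hz
          linarith
        have hopp' : ∀ z, e.1.2 < dotR e.1.1 z → dotR f.1.1 z < f.1.2 := by
          intro z hz
          rw [heq] at hz
          have h5 := (hG2 f.1.1 (hmem f hf).1).2 z
          change -f.1.2 < dotR ((f.1.1 + 4) % 8) z at hz
          rw [h5] at hz
          linarith
        have hz₂f := hopp z₂ hz₂e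
        rcases hcls f hf with ⟨h, -⟩ | ⟨-, hkn | ⟨p, hkp, ⟨hfp, hne⟩ | hd⟩⟩
        · have h5 := h z₁ hz₁ hz₁e
          have h6 := hopp' z₁ hz₁e
          linarith
        · rw [hkn] at hz₂
          have := hz₂.2 f hf
          linarith
        · rw [hkp] at hz₂
          have := hz₂.2.2 f hf hfp hne
          linarith
        · rw [hkp] at hz₂
          have h5 := h10 f.1 p.1 (hmem p (hkmem p hkp)).2 hd.symm z₂ hz₂RS hz₂f
          have h6 := hz₂.2.1
          linarith
  refine ⟨hnew, ?_⟩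
  cases hpar : parent r G e with
  | none =>
    cases hkk : k with
    | none => rfl
    | some p => exact absurd (hsubp p hkk) (parent_eq_none hpar p (hkmem p hkk))
  | some q =>
    obtain ⟨hqG, heq, hiff⟩ := parent_some hep hV hpar
    rcases hcls q hqG with ⟨-, p, hkp, hpq⟩ | ⟨h, -⟩
    · have h5 := (hiff p (hkmem p hkp)).1 (hsubp p hkp)
      rw [hkp, hanti q hqG p (hkmem p hkp) h5 hpq]
    · exact absurd (heq z₁ hz₁ hz₁e) (h z₁ hz₁ hz₁e)

/-- BLOCK SEM2 -/
theorem stmt_SEM2 (hG : Stmt_GEO1) (hR : Stmt_REF) (hD : Stmt_DIR) : Stmt_SEM2 := by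
  intro m hm G hV t below above L a c up hs hfold
  have hr : RecOK (recR m) := by
    refine ⟨?_, ?_⟩
    · change (m.x0 : ℝ) < m.x1
      exact_mod_cast hm.1
    · change (m.y0 : ℝ) < m.y1
      exact_mod_cast hm.2.1
  set r := recR m with hrdef
  have hRIRS : RI r ⊆ RS r := by
    obtain ⟨-, -, -, hG4⟩ := hG
    obtain ⟨-, h2, -⟩ := hG4 r hr
    rw [← h2]; exact interior_subset
  have hclos : closure (RI r) = RS r := by
    obtain ⟨-, -, -, hG4⟩ := hG
    exact (hG4 r hr).2.2.1
  -- the piece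
  have hsp := hs.split
  rw [stateR_layers, List.map_eq_append_iff] at hsp
  obtain ⟨l₁, l₂', hst, hb, hla⟩ := hsp
  rw [List.map_eq_cons_iff] at hla
  obtain ⟨k, l₂, rfl, hL, ha⟩ := hla
  subst hb hL ha
  have hkm : k ∈ stackR r G := by rw [hst]; simp
  have hother : ∀ k' ∈ stackR r G, k' ≠ k → layR r G k' ∈ l₁.map (layR r G) ++ l₂.map (layR r G) := by
    intro k' hk' hne
    rw [hst] at hk'
    rw [← List.map_append]
    apply List.mem_map_of_mem
    rw [List.mem_append] at hk' ⊢
    rcases hk' with h | h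
    · exact Or.inl h
    · rcases List.mem_cons.1 h with h | h
      · exact absurd h hne
      · exact Or.inr h
  have hl8 : ∀ f ∈ ancO r G k, f.1.1 < 8 := by
    classical
    intro f hf
    cases k with
    | none => simp [ancO] at hf
    | some q => exact (vsr_mem hV f (List.mem_of_mem_filter hf)).1
  obtain ⟨-, -, hR3, -⟩ := hR
  obtain ⟨-, -, -, hR4, -⟩ := hR3 (ancO r G k) hl8
  obtain ⟨a', c', ha', hac, hrefl⟩ := hR4 a c hs.line
  -- translation of the conditions
  have hcross₁ : ∃ z ∈ piece r G k, c' < a'.1 * z.1 + a'.2 * z.2 := by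
    obtain ⟨z, hz, hz'⟩ := hs.cross₁
    have h1 := hac z
    change c < a.1 * (gm (ancO r G k) z).1 + a.2 * (gm (ancO r G k) z).2 at hz'
    exact ⟨z, hz, by linarith⟩
  have hcross₂ : ∃ z ∈ piece r G k, a'.1 * z.1 + a'.2 * z.2 < c' := by
    obtain ⟨z, hz, hz'⟩ := hs.cross₂
    have h1 := hac z
    change a.1 * (gm (ancO r G k) z).1 + a.2 * (gm (ancO r G k) z).2 < c at hz'
    exact ⟨z, hz, by linarith⟩
  have hnotear : ∀ k' ∈ stackR r G, k' ≠ k → ∀ z ∈ piece r G k, z ∈ piece r G k' →
      a'.1 * z.1 + a'.2 * z.2 ≤ c' := by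
    intro k' hk' hne z hz hz'
    have h1 := hs.notear _ (hother k' hk' hne) z hz hz'
    change a.1 * (gm (ancO r G k) z).1 + a.2 * (gm (ancO r G k) z).2 ≤ c at h1
    have h2 := hac z
    linarith
  have hcap := cap_subset_piece hG hr hV a' c' hcross₁ hnotear
  have hchord := chord_subset_piece hG hr a' c' hcross₁ hcap
  -- the direction
  have hcontF : Continuous fun z : Pt => a'.1 * z.1 + a'.2 * z.2 := by fun_prop
  have hin₁ : ∃ z ∈ m.inner, c' < a'.1 * z.1 + a'.2 * z.2 := by
    obtain ⟨z, hz, hz'⟩ := hcross₁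
    have h1 : z ∈ closure (RI r) := by rw [hclos]; exact piece_subset r G k hz
    obtain ⟨w, hw1, hw2⟩ := mem_closure_iff.1 h1 _ (isOpen_lt continuous_const hcontF) hz'
    exact ⟨w, hw2, hw1⟩
  have hin₂ : ∃ z ∈ m.inner, a'.1 * z.1 + a'.2 * z.2 < c' := by
    obtain ⟨z, hz, hz'⟩ := hcross₂
    have h1 : z ∈ closure (RI r) := by rw [hclos]; exact piece_subset r G k hz
    obtain ⟨w, hw1, hw2⟩ := mem_closure_iff.1 h1 _ (isOpen_lt hcontF continuous_const) hz'
    exact ⟨w, hw2, hw1⟩
  have hmark : ∀ z ∈ m.inner, a'.1 * z.1 + a'.2 * z.2 = c' → z ∈ m.marked true ∪ m.marked false := by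
    intro z hz hzc
    apply hfold (up != (layR r G k).flip)
    refine ⟨?_, hz⟩
    rw [hs.folds, if_pos rfl]
    right
    refine ⟨hchord z (hRIRS hz) hzc, ?_⟩
    change a.1 * (gm (ancO r G k) z).1 + a.2 * (gm (ancO r G k) z).2 = c
    have h2 := hac z
    linarith
  obtain ⟨i, d, τ, hi8, hτ, hF⟩ := hD m hm a' c' ha' hin₁ hin₂ hmark
  set e : Cap ℝ := ((i, d), (up != (layR r G k).flip)) with he
  have hFpos : ∀ z, c' < a'.1 * z.1 + a'.2 * z.2 ↔ e.1.2 < dotR e.1.1 z := by
    intro z
    have h1 := hF z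
    change _ ↔ d < dotR i z
    constructor
    · intro h2; by_contra h3; rw [not_lt] at h3
      have := mul_nonneg hτ.le (sub_nonneg.2 h3); nlinarith
    · intro h2
      have := mul_pos hτ (sub_pos.2 h2); linarith
  have hFneg : ∀ z, a'.1 * z.1 + a'.2 * z.2 < c' ↔ dotR e.1.1 z < e.1.2 := by
    intro z
    have h1 := hF z
    change _ ↔ dotR i z < d
    constructor
    · intro h2; by_contra h3; rw [not_lt] at h3
      have := mul_nonneg hτ.le (sub_nonneg.2 h3); linarith
    · intro h2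
      have := mul_pos hτ (sub_pos.2 h2); nlinarith
  have hep : ProperS r e.1 := by
    refine ⟨?_, ?_⟩
    · obtain ⟨z, hz, hz'⟩ := hin₁
      exact ⟨z, hz, (hFpos z).1 hz'⟩
    · obtain ⟨z, hz, hz'⟩ := hin₂
      exact ⟨z, hz, (hFneg z).1 hz'⟩
  obtain ⟨hnew, hpar⟩ := newCap_of_line hG hr hV hkm e hi8 hep
    (fun z hz hze => hcap z hz ((hFpos z).2 hze))
    (by obtain ⟨z, hz, hz'⟩ := hcross₂; exact ⟨z, hz, (hFneg z).1 hz'⟩)
  have hanc := ancs_eq_parent hep hV
  rw [hpar] at hanc
  -- the line data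
  have hcoef : a'.1 = τ * (nvec i).1 ∧ a'.2 = τ * (nvec i).2 ∧ c' = τ * d := by
    have h0 := hF (0, 0)
    have h1 := hF (1, 0)
    have h2 := hF (0, 1)
    rw [hG.1] at h0 h1 h2
    simp only [mul_zero, mul_one, add_zero, zero_add] at h0 h1 h2
    refine ⟨by linarith, by linarith, by linarith⟩
  have hu2 : 0 < (nvec i).1 ^ 2 + (nvec i).2 ^ 2 := by
    have hu := (hG.2.1 _ hi8).1
    by_contra hcon
    have h3 : (nvec i).1 ^ 2 + (nvec i).2 ^ 2 = 0 :=
      le_antisymm (not_lt.1 hcon) (by positivity)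
    have h4 : (nvec i).1 = 0 := by
      nlinarith [sq_nonneg (nvec i).1, sq_nonneg (nvec i).2]
    have h5 : (nvec i).2 = 0 := by
      nlinarith [sq_nonneg (nvec i).1, sq_nonneg (nvec i).2]
    exact hu (Prod.ext h4 h5)
  have hrf : ∀ z, refl a' c' z = rf e.1 z := by
    intro z
    change refl a' c' z = refl (nvec i) d z
    unfold refl
    obtain ⟨h1, h2, h3⟩ := hcoef
    rw [h1, h2, h3]
    have h4 : (τ * (nvec i).1) ^ 2 + (τ * (nvec i).2) ^ 2 =
        τ ^ 2 * ((nvec i).1 ^ 2 + (nvec i).2 ^ 2) := by ring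
    have h5 : 2 * (τ * (nvec i).1 * z.1 + τ * (nvec i).2 * z.2 - τ * d) /
        (τ ^ 2 * ((nvec i).1 ^ 2 + (nvec i).2 ^ 2)) =
        (2 * ((nvec i).1 * z.1 + (nvec i).2 * z.2 - d) / ((nvec i).1 ^ 2 + (nvec i).2 ^ 2)) / τ := by
      field_simp
    rw [h4, h5]
    ext
    · dsimp only
      field_simp
    · dsimp only
      field_simp
  have hd : LineData r G e a c τ := by
    refine ⟨hτ, fun z => ?_, fun z => ?_⟩
    · rw [hanc, hac]; exact hF z
    · rw [hanc, hrefl, hrf]
  have hup : upR r G e = up := by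
    unfold upR
    rw [hanc]
    change ((up != decide ((ancO r G k).length % 2 = 1)) != decide ((ancO r G k).length % 2 = 1)) = up
    cases up <;> cases decide ((ancO r G k).length % 2 = 1) <;> rfl
  have hrot := hnew.rot_eq hG hr hV hd
  rw [hpar] at hrot
  refine ⟨e, ⟨hV, hi8, hep, hnew.pos, ?_⟩, ?_⟩
  · -- Free
    intro m₁ m₂ hm' k' hk'
    rw [hpar] at hm'
    have hnd := (vsr_nodup hV).2
    have huniq : m₁ = l₁ ∧ m₂ = l₂ := by
      rw [hst] at hm'
      have hnd' := hnd
      rw [hst] at hnd'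
      -- position of `k`
      have h1 : k ∉ l₁ := by
        intro h
        rw [List.nodup_append] at hnd'
        exact hnd'.2.2 k h k List.mem_cons_self rfl
      have hnd'' : (m₁ ++ k :: m₂).Nodup := by rw [← hm']; exact hnd'
      have h2 : k ∉ m₁ := by
        intro h
        rw [List.nodup_append] at hnd''
        exact hnd''.2.2 k h k List.mem_cons_self rfl
      rw [List.append_eq_append_iff] at hm'
      rcases hm' with ⟨as, h3, h4⟩ | ⟨as, h3, h4⟩
      · cases as with
        | nil =>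
          simp only [List.append_nil, List.nil_append, List.cons.injEq, true_and] at h3 h4
          exact ⟨h3, h4.symm⟩
        | cons x as =>
          simp only [List.cons_append, List.cons.injEq] at h4
          exact absurd (by rw [h3, ← h4.1]; simp) h2
      · cases as with
        | nil =>
          simp only [List.append_nil, List.nil_append, List.cons.injEq, true_and] at h3 h4
          exact ⟨h3.symm, h4⟩
        | cons x as =>
          simp only [List.cons_append, List.cons.injEq] at h4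
          exact absurd (by rw [h3, ← h4.1]; simp) h1
    obtain ⟨rfl, rfl⟩ := huniq
    rw [hup] at hk'
    have h1 : layR r G k' ∈ (if up then m₂.map (layR r G) else m₁.map (layR r G)) := by
      split_ifs at hk' ⊢ <;> exact List.mem_map_of_mem hk'
    have h2 := hs.free _ h1
    rw [hrot] at h2
    rw [hanc]
    exact h2
  · -- the state
    have h1 := hnew.layers_eq hG hr hV hd (l₁ := l₁) (l₂ := l₂) (by rw [hpar]; exact hst)
    have h2 := fun b => hnew.folds_eq hG hr hV hd b
    rw [hpar, hup] at h1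
    have h3 : t.layers = (stateR r (e :: G)).layers := by
      rw [h1, hs.layers]
    have h4 : t.fold = (stateR r (e :: G)).fold := by
      funext b
      rw [h2 b, hs.folds b, hpar, hup]
    obtain ⟨tl, tf⟩ := t
    change tl = _ at h3
    change tf = _ at h4
    rw [h3, h4]

end Pool.Agent.Work.MP_bd4052_lc
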